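import Mathlib
import Pool.Agent.MP_c384ac_an.Bridge

universe u

namespace Pool.Agent.Results.MP_c384ac_an.RightAccessibleIffLRP

open Pool.Agent.MP_c384ac_an

/-- Every Banach operator ideal (maximal or not), over the real or complex scalars, is
right-accessible if and only if it satisfies its principle of local reflexivity. -/
theorem result (𝕜 : Type) [RCLike 𝕜] (A : BanachIdeal.{u} 𝕜) : A.RightAccessible ↔ A.LRP :=
  A.rightAccessible_iff_lrp

end Pool.Agent.Results.MP_c384ac_an.RightAccessibleIffLRP
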